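import Pool.Agent.Lib.MP_eee7a8_ag.TB.IfaceB

/-!
# ARCFAM: the strands of a non crossing family of arcs
-/

namespace Pool.Agent.Lib.MP_eee7a8_ag.TB.PB.H62

theorem SameArc.smul {G : Subgroup SLZ} {s t a b : Cusp} (h : SameArc G s t a b) {g : SLZ}
    (hg : g ∈ G) : SameArc G s t (g • a) (g • b) := by
  obtain ⟨g', hg', ⟨h1, h2⟩ | ⟨h1, h2⟩⟩ := h
  · exact ⟨g * g', G.mul_mem hg hg', Or.inl ⟨by rw [mul_smul, h1], by rw [mul_smul, h2]⟩⟩
  · exact ⟨g * g', G.mul_mem hg hg', Or.inr ⟨by rw [mul_smul, h1], by rw [mul_smul, h2]⟩⟩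

theorem SameArc.abs_dt {G : Subgroup SLZ} {s t a b : Cusp} (h : SameArc G s t a b) :
    |dt a b| = |dt s t| := by
  obtain ⟨g', _, ⟨h1, h2⟩ | ⟨h1, h2⟩⟩ := h
  · rw [← h1, ← h2, abs_dt_smul]
  · rw [← h1, ← h2, abs_dt_smul, dt_abs_symm]

theorem arcfam : ARCFAM_S := by
  classical
  intro G ι _ T hT
  have _ : Fintype ι := Fintype.ofFinite ι
  have hE : ∀ {a b : Cusp}, T.E G a b → ∃ i, |dt a b| = |dt (T.s i) (T.t i)| := by
    rintro a b ⟨i, h⟩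
    exact ⟨i, SameArc.abs_dt h⟩
  have hne : ∀ {a b : Cusp}, T.E G a b → a ≠ b := by
    intro a b h
    obtain ⟨i, hi⟩ := hE h
    rintro rfl
    rw [dt_self, abs_zero] at hi
    exact dt_ne_zero (hT.ne i) (abs_eq_zero.1 hi.symm)
  have hpow : ∀ z : ℤ, z ^ 4 = |z| ^ 4 := fun z => by rw [← abs_pow]; rw [abs_of_nonneg (by positivity)]
  refine ⟨⟨?_, ?_, ?_⟩, ?_⟩
  · rintro _ ⟨a, b, h, rfl⟩
    rw [disc_arcF]
    exact (by norm_num : Even 4).pow_pos (dt_ne_zero (hne h))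
  · rintro g hg _ ⟨a, b, ⟨i, h⟩, rfl⟩
    exact ⟨g • a, g • b, ⟨i, SameArc.smul h hg⟩, act_arcF g a b⟩
  · refine ⟨∑ i, |dt (T.s i) (T.t i)| ^ 4, ?_⟩
    rintro _ ⟨a, b, h, rfl⟩
    obtain ⟨i, hi⟩ := hE h
    rw [disc_arcF, hpow, hi]
    exact Finset.single_le_sum (f := fun i => |dt (T.s i) (T.t i)| ^ 4)
      (fun j _ => by positivity) (Finset.mem_univ i)
  · refine ⟨(Finset.univ.image (fun i => arcF (T.s i) (T.t i))) ∪
      (Finset.univ.image (fun i => arcF (T.t i) (T.s i))), ?_, ?_⟩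
    · have key : ∀ s t : Cusp, T.E G s t → ∀ g ∈ G,
          0 ≤ (arcF s t).res ((arcF s t).act g) := by
        intro s t h g hg
        rw [act_arcF, res_arcF]
        obtain ⟨i, hi⟩ := h
        have hn := hT.nocross s t (g • s) (g • t) ⟨i, hi⟩ ⟨i, SameArc.smul hi hg⟩
        unfold Cross at hn
        push Not at hn
        apply mul_nonneg (sq_nonneg _)
        exact hn
      intro f hf g hg
      rw [Finset.mem_union, Finset.mem_image, Finset.mem_image] at hf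
      rcases hf with ⟨i, _, rfl⟩ | ⟨i, _, rfl⟩
      · exact key _ _ ⟨i, 1, G.one_mem, Or.inl ⟨one_smul _ _, one_smul _ _⟩⟩ g hg
      · exact key _ _ ⟨i, 1, G.one_mem, Or.inr ⟨one_smul _ _, one_smul _ _⟩⟩ g hg
    · rintro _ ⟨a, b, ⟨i, g, hg, ⟨h1, h2⟩ | ⟨h1, h2⟩⟩, rfl⟩
      · refine ⟨arcF (T.s i) (T.t i), ?_, g, hg, ?_⟩
        · rw [Finset.mem_union, Finset.mem_image]
          exact Or.inl ⟨i, Finset.mem_univ _, rfl⟩
        · rw [act_arcF, h1, h2]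
      · refine ⟨arcF (T.t i) (T.s i), ?_, g, hg, ?_⟩
        · rw [Finset.mem_union, Finset.mem_image, Finset.mem_image]
          exact Or.inr ⟨i, Finset.mem_univ _, rfl⟩
        · rw [act_arcF, h1, h2]

end Pool.Agent.Lib.MP_eee7a8_ag.TB.PB.H62
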