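import Pool.Agent.Lib.MP_eee7a8_ag.TB.IfaceB

/-!
# CPRG: the ordered products lie in the group
-/

namespace Pool.Agent.Lib.MP_eee7a8_ag.TB.PB.H62

theorem cprg (hw : WW_S) : CPRG_S := by
  classical
  intro G κ Λ n x y
  unfold cpr
  split_ifs with H
  · apply Subgroup.list_prod_mem
    intro a ha
    rw [List.mem_map] at ha
    obtain ⟨k, hk, rfl⟩ := ha
    exact ((hw G κ Λ n).2.2.2.2 k ((H.choose_spec.1 k).1 hk).1).1
  · exact G.one_mem

end Pool.Agent.Lib.MP_eee7a8_ag.TB.PB.H62
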