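import Pool.Agent.Lib.MP_eee7a8_ag.TB.IfaceB

/-!
# EL: finite compositions of elementary twists
-/

namespace Pool.Agent.Lib.MP_eee7a8_ag.TB.PB.H62

variable {G : Subgroup SLZ} {κ : Type} {Λ : LFam G κ}

/-- An elementary twist preserves the outer and the disjoint half planes. -/
theorem side_twist (hn : NEST_S) (hw : WW_S) (n : κ → ℤ) {o : Cusp} {k k' : SLZ}
    (hk : k ∈ Λ.KK) (hk' : k' ∈ Λ.KK) (hko : side k o < 0) (hko' : side k' o < 0)
    (hnot : ¬ HP k k') (u : Cusp) :
    0 < side k (if 0 < side k' u then Λ.w n k' • u else u) ↔ 0 < side k u := by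
  split_ifs with hu
  · have hs : 0 < side k' (Λ.w n k' • u) := by
      rw [((hw G κ Λ n).2.2.2.2 k' hk').2.2 u]; exact hu
    rcases hn G κ Λ k hk k' hk' with h | h | h | h
    · exact absurd h hnot
    · exact ⟨fun _ => h u hu, fun _ => h _ hs⟩
    · have key : ∀ v, 0 < side k' v → ¬ 0 < side k v := by
        intro v hv hv'
        have := h v hv'
        rw [side_inv] at this
        omega
      exact ⟨fun h1 => absurd h1 (key _ hs), fun h1 => absurd h1 (key _ hu)⟩
    · exfalso
      have h1 := h o (by rw [side_inv]; omega)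
      omega
  · exact Iff.rfl

theorem side_DL (hn : NEST_S) (hw : WW_S) (n : κ → ℤ) {o : Cusp} {k : SLZ}
    (hk : k ∈ Λ.KK) (hko : side k o < 0) (l : List SLZ)
    (hl : ∀ k' ∈ l, k' ∈ Λ.KK ∧ side k' o < 0 ∧ ¬ HP k k') (v : Cusp) :
    0 < side k (Λ.DL n l v) ↔ 0 < side k v := by
  induction l with
  | nil => exact Iff.rfl
  | cons k' l ih =>
    have h1 := hl k' List.mem_cons_self
    have h2 := ih (fun a ha => hl a (List.mem_cons_of_mem _ ha))
    rw [← h2]
    exact side_twist hn hw n hk h1.1 hko h1.2.1 h1.2.2 (Λ.DL n l v)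

theorem el (hn : NEST_S) (hw : WW_S) : EL_S := by
  intro G κ Λ n o l hl hp v
  induction l with
  | nil => simp [LFam.DL]
  | cons k l ih =>
    rw [List.pairwise_cons] at hp
    have hk := hl k List.mem_cons_self
    have hl' : ∀ a ∈ l, a ∈ Λ.KK ∧ side a o < 0 := fun a ha => hl a (List.mem_cons_of_mem _ ha)
    have hih := ih hl' hp.2
    have hs := side_DL (Λ := Λ) hn hw n hk.1 hk.2 l
      (fun a ha => ⟨(hl' a ha).1, (hl' a ha).2, hp.1 a ha⟩) v
    have hstep : Λ.DL n (k :: l) v =
        if 0 < side k (Λ.DL n l v) then Λ.w n k • Λ.DL n l v else Λ.DL n l v := rfl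
    rw [hstep]
    by_cases hkv : 0 < side k v
    · rw [if_pos (hs.2 hkv), List.filter_cons_of_pos (by simpa using hkv), List.map_cons,
        List.prod_cons, mul_smul, hih]
    · rw [if_neg (fun h => hkv (hs.1 h)), List.filter_cons_of_neg (by simpa using hkv), hih]

end Pool.Agent.Lib.MP_eee7a8_ag.TB.PB.H62
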