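import Pool.Agent.Lib.MP_eee7a8_ag.TB.IfaceB

/-!
# EQV: equivariance of the ordered products
-/

namespace Pool.Agent.Lib.MP_eee7a8_ag.TB.PB.H62

theorem eqv (ho : ORD_S) (hw : WW_S) : EQV_S := by
  classical
  intro G κ Λ n x y g hf
  obtain ⟨l, hl, hu⟩ := ho G κ Λ x y hf
  let c : SLZ → SLZ := fun k => (g : SLZ) * k * (g : SLZ)⁻¹
  have hc : ∀ k, (g : SLZ)⁻¹ * c k * g = k := by intro k; simp only [c]; group
  have hc' : ∀ k, c ((g : SLZ)⁻¹ * k * g) = k := by intro k; simp only [c]; group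
  have hci : Function.Injective c := fun a b h => by
    have := congrArg (fun k => (g : SLZ)⁻¹ * k * g) h
    simp only [hc] at this
    exact this
  have hmem : ∀ k, k ∈ (x.act g).Sep (y.act g) ↔ (g : SLZ)⁻¹ * k * g ∈ x.Sep y := by
    intro k
    unfold Pt.Sep Pt.act
    simp only [Set.mem_ofPred_eq]
    constructor
    · rintro ⟨h1, h2, h3⟩
      exact ⟨LFam.KK_conj' h1 g.2, h2, h3⟩
    · rintro ⟨h1, h2, h3⟩
      refine ⟨?_, h2, h3⟩
      have := LFam.KK_conj h1 g.2
      have e : (g : SLZ) * ((g : SLZ)⁻¹ * k * g) * (g : SLZ)⁻¹ = k := by group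
      rwa [e] at this
  have hl' : IsOrd (x.act g) (y.act g) (l.map c) := by
    refine ⟨?_, hl.2.1.map hci, ?_⟩
    · intro k
      rw [hmem, ← hl.1, List.mem_map]
      constructor
      · rintro ⟨a, ha, rfl⟩
        rw [hc]; exact ha
      · intro h
        exact ⟨_, h, hc' k⟩
    · rw [List.pairwise_map]
      exact hl.2.2.imp (fun h => h.conj _)
  have hf' : ((x.act g).Sep (y.act g)).Finite := by
    have : (x.act g).Sep (y.act g) ⊆ c '' (x.Sep y) := by
      intro k hk
      exact ⟨_, (hmem k).1 hk, hc' k⟩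
    exact (hf.image c).subset this
  have key : ∀ {x y : Pt Λ} (_ : (x.Sep y).Finite) {l : List SLZ} (_ : IsOrd x y l),
      cpr n x y = (l.map (Λ.w n)).prod := by
    intro x y hf l hl
    have H : ∃ l, IsOrd x y l := ⟨l, hl⟩
    obtain ⟨l₀, _, hu⟩ := ho G κ Λ x y hf
    unfold cpr
    rw [dif_pos H, hu _ H.choose_spec, hu _ hl]
  rw [key hf' hl', key hf hl, List.map_map]
  have hm : l.map (Λ.w n ∘ c) = (l.map (Λ.w n)).map c := by
    rw [List.map_map]
    apply List.map_congr_left
    intro k hk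
    exact (hw G κ Λ n).2.2.1 k ((hl.1 k).1 hk).1 g g.2
  rw [hm]
  have hp : ∀ L : List SLZ, (L.map c).prod = c L.prod := by
    intro L
    induction L with
    | nil => simp [c]
    | cons a L ih =>
      rw [List.map_cons, List.prod_cons, List.prod_cons, ih]
      simp only [c]
      group
  rw [hp]

end Pool.Agent.Lib.MP_eee7a8_ag.TB.PB.H62
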