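import Pool.Agent.Lib.MP_eee7a8_ag.TB.IfaceB

/-!
# MEMUN: every axis belongs to one loop
-/

namespace Pool.Agent.Lib.MP_eee7a8_ag.TB.PB.H62

theorem memun : MEMUN_S := by
  intro G κ Λ k i j hi hj
  by_contra hij
  have hd := Λ.disj i j hij
  obtain ⟨a, ha, hka⟩ := hi
  obtain ⟨b, hb, hkb⟩ := hj
  have hg : a⁻¹ * b ∈ G := G.mul_mem (G.inv_mem ha) hb
  obtain ⟨_, h1, _, h3, _⟩ := hd _ hg
  rcases hka with hka | hka <;> rcases hkb with hkb | hkb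
  · apply h1
    rw [hka] at hkb
    have : Λ.h i = a⁻¹ * (a * Λ.h i * a⁻¹) * a := by group
    rw [this, hkb]; group
  · apply h3
    rw [hka] at hkb
    have : (Λ.h i)⁻¹ = (a⁻¹ * (a * Λ.h i * a⁻¹) * a)⁻¹ := by group
    rw [this, hkb]; group
  · apply h3
    rw [hka] at hkb
    have : (Λ.h i)⁻¹ = a⁻¹ * (a * (Λ.h i)⁻¹ * a⁻¹) * a := by group
    rw [this, hkb]; group
  · apply h1
    rw [hka] at hkb
    have : Λ.h i = (a⁻¹ * (a * (Λ.h i)⁻¹ * a⁻¹) * a)⁻¹ := by group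
    rw [this, hkb]; group

end Pool.Agent.Lib.MP_eee7a8_ag.TB.PB.H62
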