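import Pool.Agent.Lib.MP_eee7a8_ag.TB.IfaceB

/-!
# ORD: the separating axes are totally ordered
-/

namespace Pool.Agent.Lib.MP_eee7a8_ag.TB.PB.H62

variable {G : Subgroup SLZ} {κ : Type} {Λ : LFam G κ}

theorem sep_total (hn : NEST_S) (x y : Pt Λ) {k k' : SLZ} (hk : k ∈ x.Sep y)
    (hk' : k' ∈ x.Sep y) : HP k k' ∨ HP k' k := by
  obtain ⟨h1, h2, h3⟩ := hk
  obtain ⟨h1', h2', h3'⟩ := hk'
  rcases hn G κ Λ k h1 k' h1' with h | h | h | h
  · exact Or.inl h
  · exact Or.inr h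
  · exfalso
    have := y.up k h1 _ (LFam.KK_inv h1') h h3
    exact (y.inv k' h1').1 this h3'
  · exfalso
    have h4 : x.mem k⁻¹ := (x.inv k h1).2 h2
    exact h2' (x.up _ (LFam.KK_inv h1) _ h1' h h4)

/-- Two ordered lists with the same elements agree. -/
theorem ord_unique (hs : SAME_S) {l l' : List SLZ} (hKK : ∀ k ∈ l, k ∈ Λ.KK)
    (hm : ∀ k, k ∈ l ↔ k ∈ l') (hd : l.Nodup) (hd' : l'.Nodup)
    (hp : l.Pairwise (fun k k' => HP k' k)) (hp' : l'.Pairwise (fun k k' => HP k' k)) :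
    l = l' := by
  have hperm : l.Perm l' := (List.perm_ext_iff_of_nodup hd hd').2 hm
  refine hperm.eq_of_pairwise ?_ hp hp'
  intro a b ha hb h1 h2
  exact hs G κ Λ a (hKK a ha) b (hKK b ((hm b).2 hb)) h2 h1

theorem exists_ord (hn : NEST_S) (hs : SAME_S) (x y : Pt Λ) (hf : (x.Sep y).Finite) :
    ∃ l, IsOrd x y l := by
  classical
  let r : (x.Sep y) → (x.Sep y) → Prop := fun a b => HP b.1 a.1
  have : Finite (x.Sep y) := hf
  have : Fintype (x.Sep y) := Fintype.ofFinite _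
  have : DecidableRel r := Classical.decRel _
  have : IsTrans (x.Sep y) r := ⟨fun a b c h1 h2 => HP.trans h2 h1⟩
  have : Std.Antisymm r := ⟨fun a b h1 h2 => Subtype.ext (hs G κ Λ a.1 a.2.1 b.1 b.2.1 h2 h1)⟩
  have : Std.Total r := ⟨fun a b => by
    rcases sep_total hn x y a.2 b.2 with h | h
    · exact Or.inr h
    · exact Or.inl h⟩
  let s : List (x.Sep y) := (Finset.univ : Finset (x.Sep y)).sort r
  refine ⟨s.map Subtype.val, ?_, ?_, ?_⟩
  · intro k
    rw [List.mem_map]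
    constructor
    · rintro ⟨a, _, rfl⟩
      exact a.2
    · intro hk
      exact ⟨⟨k, hk⟩, (Finset.mem_sort r).2 (Finset.mem_univ _), rfl⟩
  · exact ((Finset.univ : Finset (x.Sep y)).sort_nodup r).map Subtype.val_injective
  · rw [List.pairwise_map]
    exact (Finset.univ : Finset (x.Sep y)).pairwise_sort r

theorem ord (hn : NEST_S) (hs : SAME_S) : ORD_S := by
  intro G κ Λ x y hf
  obtain ⟨l, hl⟩ := exists_ord hn hs x y hf
  refine ⟨l, hl, ?_⟩
  intro l' hl'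
  symm
  exact ord_unique (Λ := Λ) hs (fun k hk => ((hl.1 k).1 hk).1)
    (fun k => (hl.1 k).trans (hl'.1 k).symm) hl.2.1 hl'.2.1 hl.2.2 hl'.2.2

end Pool.Agent.Lib.MP_eee7a8_ag.TB.PB.H62
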