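import Pool.Agent.Lib.MP_eee7a8_ag.TB.IfaceB

/-!
# SEPFIN: finitely many axes separate two cusps
-/

namespace Pool.Agent.Lib.MP_eee7a8_ag.TB.PB.H62

/-- The form `sideF k` determines `k` if `2 < tr k`. -/
theorem sideF_inj {k k' : SLZ} (hk : 2 < k.1.trace) (hk' : 2 < k'.1.trace)
    (h : sideF k = sideF k') : k = k' := by
  have hd := disc_sideF k
  have hd' := disc_sideF k'
  rw [h] at hd
  have ht : k.1.trace = k'.1.trace := by nlinarith
  rw [Matrix.trace_fin_two, Matrix.trace_fin_two] at ht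
  have h1 : k.1 1 0 = k'.1 1 0 := congrArg QF.a h
  have h2 : k.1 1 1 - k.1 0 0 = k'.1 1 1 - k'.1 0 0 := congrArg QF.b h
  have h3 : -k.1 0 1 = -k'.1 0 1 := congrArg QF.c h
  apply Subtype.ext
  ext i j
  fin_cases i <;> fin_cases j
  · change k.1 0 0 = k'.1 0 0; omega
  · change k.1 0 1 = k'.1 0 1; omega
  · exact h1
  · change k.1 1 1 = k'.1 1 1; omega

theorem sepfin (hf : FIN_S) (ha : AXFAM_S) : SEPFIN_S := by
  intro G κ _ Λ x y
  obtain ⟨h1, _, h3⟩ := ha G κ inferInstance Λ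
  have hfin := hf G Λ.strands h1.toSFam x y
  have hinj : Set.InjOn sideF ((Pt.ofCusp Λ x).Sep (Pt.ofCusp Λ y)) := by
    intro k hk k' hk' h
    exact sideF_inj (LFam.KK_tr hk.1) (LFam.KK_tr hk'.1) h
  apply Set.Finite.of_finite_image _ hinj
  apply (hfin.union (hfin.image QF.neg)).subset
  rintro _ ⟨k, hk, rfl⟩
  obtain ⟨hK, hx, hy⟩ := hk
  change ¬ 0 < side k x at hx
  change 0 < side k y at hy
  have hx' : side k x < 0 := by
    have := LFam.side_ne hK x
    omega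
  have hneg : (sideF k).ev x * (sideF k).ev y < 0 := by
    rw [ev_sideF, ev_sideF]
    exact mul_neg_of_neg_of_pos hx' hy
  rcases h3 k hK with h | h
  · exact Or.inl ⟨h, hneg⟩
  · refine Or.inr ⟨(sideF k).neg, ⟨h, ?_⟩, ?_⟩
    · rw [ev_neg, ev_neg, neg_mul_neg]; exact hneg
    · unfold QF.neg
      simp only [neg_neg]

end Pool.Agent.Lib.MP_eee7a8_ag.TB.PB.H62
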