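import Pool.Agent.Lib.MP_eee7a8_ag.TB.IfaceB

/-!
# SORT: finite sets of half planes can be listed, outer ones first
-/

namespace Pool.Agent.Lib.MP_eee7a8_ag.TB.PB.H62

theorem exists_outer {G : Subgroup SLZ} {κ : Type} (Λ : LFam G κ) (hs : SAME_S) (F : Set SLZ)
    (hF : F.Finite) (hne : F.Nonempty) (hK : F ⊆ Λ.KK) :
    ∃ k ∈ F, ∀ k' ∈ F, HP k k' → k' = k := by
  let _ : Preorder SLZ :=
    { le := HP
      le_refl := HP.refl
      le_trans := fun _ _ _ h h' => HP.trans h h' }
  obtain ⟨m, hm⟩ := hF.exists_maximal hne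
  refine ⟨m, hm.1, ?_⟩
  intro k' hk' h
  exact hs G κ Λ k' (hK hk') m (hK hm.1) (hm.2 hk' h) h

theorem sort (hs : SAME_S) : SORT_S := by
  intro G κ Λ F hF
  induction hn : F.ncard generalizing F with
  | zero =>
    intro _
    have : F = ∅ := (Set.ncard_eq_zero hF).1 hn
    subst this
    exact ⟨[], by simp, List.nodup_nil, List.Pairwise.nil⟩
  | succ n ih =>
    intro hK
    have hne : F.Nonempty := by
      rw [← Set.ncard_pos hF]; omega
    obtain ⟨k, hk, hmax⟩ := exists_outer Λ hs F hF hne hK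
    have hF' : (F \ {k}).Finite := hF.subset Set.sdiff_subset
    have hc : (F \ {k}).ncard = n := by
      rw [Set.ncard_sdiff_singleton_of_mem hk]; omega
    obtain ⟨l, h1, h2, h3⟩ := ih (F \ {k}) hF' hc (fun a ha => hK ha.1)
    refine ⟨k :: l, ?_, ?_, ?_⟩
    · intro a
      rw [List.mem_cons, h1]
      constructor
      · rintro (rfl | h)
        · exact hk
        · exact h.1
      · intro h
        by_cases e : a = k
        · exact Or.inl e
        · exact Or.inr ⟨h, e⟩
    · rw [List.nodup_cons]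
      refine ⟨?_, h2⟩
      intro h
      exact ((h1 k).1 h).2 rfl
    · rw [List.pairwise_cons]
      refine ⟨?_, h3⟩
      intro a ha hp
      exact ((h1 a).1 ha).2 (hmax a ((h1 a).1 ha).1 hp)

end Pool.Agent.Lib.MP_eee7a8_ag.TB.PB.H62
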