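import Pool.Agent.Lib.MP_eee7a8_ag.TB.IfaceB

/-!
# TOPMUL: top parts multiply
-/

namespace Pool.Agent.Lib.MP_eee7a8_ag.TB.PB.H62

open AddMonoidAlgebra

variable {ι : Type} (w : (ι → ℤ) → ℤ)

theorem part_coeff (d : ℤ) (f : LP ι) (m : ι → ℤ) [Decidable (w m = d)] :
    (part w d f).coeff m = if w m = d then f.coeff m else 0 := by
  classical
  unfold part
  rw [AddMonoidAlgebra.coeff_ofCoeff, Finsupp.filter_apply]
  congr

theorem part_add (d : ℤ) (f g : LP ι) : part w d (f + g) = part w d f + part w d g := by
  classical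
  apply AddMonoidAlgebra.ext
  apply Finsupp.ext
  intro m
  rw [AddMonoidAlgebra.coeff_add, Finsupp.add_apply, part_coeff, part_coeff, part_coeff,
    AddMonoidAlgebra.coeff_add, Finsupp.add_apply]
  split_ifs <;> simp

theorem part_zero (d : ℤ) : part w d (0 : LP ι) = 0 := by
  classical
  apply AddMonoidAlgebra.ext
  apply Finsupp.ext
  intro m
  rw [part_coeff]
  simp

theorem part_single (d : ℤ) (m : ι → ℤ) (c : ℕ) [Decidable (w m = d)] :
    part w d (.single m c : LP ι) = if w m = d then .single m c else 0 := by
  classical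
  apply AddMonoidAlgebra.ext
  apply Finsupp.ext
  intro m'
  rw [part_coeff]
  by_cases h : m = m'
  · subst h
    split_ifs <;> simp
  · split_ifs <;> simp [AddMonoidAlgebra.coeff_single, h]

theorem part_sum {α : Type*} (d : ℤ) (s : Finset α) (f : α → LP ι) :
    part w d (∑ a ∈ s, f a) = ∑ a ∈ s, part w d (f a) := by
  classical
  induction s using Finset.induction_on with
  | empty => simp [part_zero]
  | insert a s ha ih => rw [Finset.sum_insert ha, Finset.sum_insert ha, part_add, ih]

theorem eq_sum (f : LP ι) : f = ∑ m ∈ f.coeff.support, .single m (f.coeff m) := by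
  apply AddMonoidAlgebra.ext
  apply Finsupp.ext
  intro m
  rw [AddMonoidAlgebra.coeff_sum]
  have := Finsupp.sum_single f.coeff
  conv_lhs => rw [← this]
  rfl

theorem topmul : TOPMUL_S := by
  classical
  intro ι _ w hw f g d e hf hg
  constructor
  · intro m hm
    have h1 : f * g = ∑ a ∈ f.coeff.support, ∑ b ∈ g.coeff.support,
        .single (a + b) (f.coeff a * g.coeff b) := by
      conv_lhs => rw [eq_sum f, eq_sum g]
      rw [Finset.sum_mul_sum]
      apply Finset.sum_congr rfl
      intro a _
      apply Finset.sum_congr rfl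
      intro b _
      rw [AddMonoidAlgebra.single_mul_single]
    rw [Finsupp.mem_support_iff, h1, AddMonoidAlgebra.coeff_sum, Finsupp.finsetSum_apply] at hm
    obtain ⟨a, ha, hm⟩ := Finset.exists_ne_zero_of_sum_ne_zero hm
    rw [AddMonoidAlgebra.coeff_sum, Finsupp.finsetSum_apply] at hm
    obtain ⟨b, hb, hm⟩ := Finset.exists_ne_zero_of_sum_ne_zero hm
    rw [AddMonoidAlgebra.coeff_single, Finsupp.single_apply] at hm
    have : a + b = m := by
      by_contra h
      rw [if_neg h] at hm
      exact hm rfl
    rw [← this, hw]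
    have := hf a ha
    have := hg b hb
    omega
  · conv_lhs => rw [eq_sum f, eq_sum g]
    conv_rhs => rw [eq_sum f, eq_sum g]
    rw [Finset.sum_mul_sum, part_sum, part_sum, part_sum, Finset.sum_mul_sum]
    apply Finset.sum_congr rfl
    intro a ha
    rw [part_sum]
    apply Finset.sum_congr rfl
    intro b hb
    rw [AddMonoidAlgebra.single_mul_single, part_single, part_single, part_single, hw]
    have h1 := hf a ha
    have h2 := hg b hb
    by_cases h3 : w a = d
    · by_cases h4 : w b = e
      · rw [if_pos (by omega), if_pos h3, if_pos h4, AddMonoidAlgebra.single_mul_single]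
      · rw [if_neg (by omega), if_neg h4, mul_zero]
    · rw [if_neg (by omega), if_neg h3, zero_mul]

end Pool.Agent.Lib.MP_eee7a8_ag.TB.PB.H62
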