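import Pool.Agent.Lib.MP_eee7a8_ag.TB.IfaceB

/-!
# XBX: the crossing numbers of pairs and of strands
-/

namespace Pool.Agent.Lib.MP_eee7a8_ag.TB.PB.H62

theorem arcF_ev_eq_zero {s t v : Cusp} (hst : s ≠ t) :
    (arcF s t).ev v = 0 ↔ v = s ∨ v = t := by
  rw [ev_arcF, mul_eq_zero, mul_eq_zero, dt_eq_zero, dt_eq_zero, dt_eq_zero]
  constructor
  · rintro ((h | h) | h)
    · exact absurd h hst
    · exact Or.inr h.symm
    · exact Or.inl h
  · rintro (h | h)
    · exact Or.inr h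
    · exact Or.inl (Or.inr h.symm)

theorem arcF_swap (s t : Cusp) : arcF t s = (arcF s t).neg := by
  unfold arcF QF.neg
  rw [dt_symm t s]
  ext <;> simp only <;> ring

theorem arcF_inj {s t s' t' : Cusp} (hst : s ≠ t) (hst' : s' ≠ t')
    (h : arcF s t = arcF s' t') : s = s' ∧ t = t' := by
  have h1 : s = s' ∨ s = t' := by
    rw [← arcF_ev_eq_zero hst', ← h, arcF_ev_eq_zero hst]
    exact Or.inl rfl
  have h2 : t = s' ∨ t = t' := by
    rw [← arcF_ev_eq_zero hst', ← h, arcF_ev_eq_zero hst]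
    exact Or.inr rfl
  rcases h1 with h1 | h1 <;> rcases h2 with h2 | h2
  · exact absurd (h1.trans h2.symm) hst
  · exact ⟨h1, h2⟩
  · exfalso
    subst h1 h2
    rw [arcF_swap t s] at h
    have hd : 0 < (arcF t s).disc := by
      rw [disc_arcF]
      exact (by norm_num : Even 4).pow_pos (dt_ne_zero hst')
    have e1 := congrArg QF.a h
    have e2 := congrArg QF.b h
    have e3 := congrArg QF.c h
    change -(arcF t s).a = (arcF t s).a at e1
    change -(arcF t s).b = (arcF t s).b at e2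
    have f1 : (arcF t s).a = 0 := by omega
    have f2 : (arcF t s).b = 0 := by omega
    unfold QF.disc at hd
    rw [f1, f2] at hd
    simp at hd
  · exact absurd (h1.trans h2.symm) hst

theorem arcF_cross {s t a b : Cusp} (hst : s ≠ t) :
    (arcF s t).ev a * (arcF s t).ev b < 0 ↔ Cross s t a b := by
  have h0 : 0 < dt s t * dt s t := mul_self_pos.2 (dt_ne_zero hst)
  have h1 : (arcF s t).ev a * (arcF s t).ev b =
      (dt s t * dt s t) * ((dt s a * dt t a) * (dt s b * dt t b)) := by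
    rw [ev_arcF, ev_arcF, dt_symm a s, dt_symm b s]; ring
  rw [h1]
  unfold Cross
  constructor
  · intro h
    by_contra hn
    push Not at hn
    have := mul_nonneg (le_of_lt h0) hn
    omega
  · intro h
    exact mul_neg_of_pos_of_neg h0 h

theorem E_ne {G : Subgroup SLZ} {κ : Type} {Q : Fam κ} (hQ : ∀ i, Q.s i ≠ Q.t i) {a b : Cusp}
    (h : Q.E G a b) : a ≠ b := by
  obtain ⟨i, g, _, ⟨h1, h2⟩ | ⟨h1, h2⟩⟩ := h
  · rintro rfl
    exact hQ i (smul_left_cancel g (h1.trans h2.symm))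
  · rintro rfl
    exact hQ i (smul_left_cancel g (h1.trans h2.symm))

theorem xbx : XBX_S := by
  intro G e κ Q hQ a b
  unfold XB XX
  congr 1
  have himg : {f | f ∈ strandsQ G Q ∧ f.Meets (Sim G e) a b} =
      (fun p : Cusp × Cusp => arcF p.1 p.2) '' {p : Cusp × Cusp | Q.E G p.1 p.2 ∧
        Cross p.1 p.2 a b ∧ ¬ Sim G e p.1 a ∧ ¬ Sim G e p.1 b ∧ ¬ Sim G e p.2 a ∧
        ¬ Sim G e p.2 b} := by
    ext f
    constructor
    · rintro ⟨⟨c, d, hE, rfl⟩, hM, hz⟩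
      have hne := E_ne hQ hE
      refine ⟨(c, d), ⟨hE, (arcF_cross hne).1 hM, ?_⟩, rfl⟩
      have h1 := hz c ((arcF_ev_eq_zero hne).2 (Or.inl rfl))
      have h2 := hz d ((arcF_ev_eq_zero hne).2 (Or.inr rfl))
      exact ⟨h1.1, h1.2, h2.1, h2.2⟩
    · rintro ⟨⟨c, d⟩, ⟨hE, hC, h1, h2, h3, h4⟩, rfl⟩
      have hne := E_ne hQ hE
      refine ⟨⟨c, d, hE, rfl⟩, (arcF_cross hne).2 hC, ?_⟩
      intro z hz
      rcases (arcF_ev_eq_zero hne).1 hz with rfl | rfl
      · exact ⟨h1, h2⟩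
      · exact ⟨h3, h4⟩
  rw [himg, Set.InjOn.ncard_image]
  rintro ⟨c, d⟩ hp ⟨c', d'⟩ hp' h
  obtain ⟨h1, h2⟩ := arcF_inj (E_ne hQ hp.1) (E_ne hQ hp'.1) h
  exact Prod.ext h1 h2

end Pool.Agent.Lib.MP_eee7a8_ag.TB.PB.H62
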