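import Pool.Agent.Lib.MP_eee7a8_ag.TB.H62.Ord

/-!
# COC: the cocycle property of the ordered products
-/

namespace Pool.Agent.Lib.MP_eee7a8_ag.TB.PB.H62

variable {G : Subgroup SLZ} {κ : Type} {Λ : LFam G κ}

theorem HP_inv {k k' : SLZ} (hk' : k' ∈ Λ.KK) (h : HP k' k) : HP k⁻¹ k'⁻¹ := by
  intro v hv
  rw [side_inv] at hv ⊢
  have h1 : ¬ 0 < side k' v := fun h2 => by
    have := h v h2
    omega
  have := LFam.side_ne hk' v
  omega

/-- The ordered product is computed from any ordered list. -/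
theorem cpr_eq (ho : ORD_S) (n : κ → ℤ) {x y : Pt Λ} (hf : (x.Sep y).Finite) {l : List SLZ}
    (hl : IsOrd x y l) : cpr n x y = (l.map (Λ.w n)).prod := by
  classical
  have H : ∃ l, IsOrd x y l := ⟨l, hl⟩
  obtain ⟨l₀, _, hu⟩ := ho G κ Λ x y hf
  unfold cpr
  rw [dif_pos H, hu _ H.choose_spec, hu _ hl]

/-- Order of two separating axes distinguished by a third point. -/
theorem order_of_split (hn : NEST_S) {x y z : Pt Λ} {a b : SLZ} (ha : a ∈ Λ.KK) (hb : b ∈ Λ.KK)
    (hax : ¬ x.mem a) (hay : y.mem a) (haz : z.mem a) (hbx : ¬ x.mem b) (hby : y.mem b)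
    (hbz : ¬ z.mem b) : HP b a := by
  rcases hn G κ Λ a ha b hb with h | h | h | h
  · exact absurd (z.up a ha b hb h haz) hbz
  · exact h
  · exact absurd hby ((y.inv b hb).1 (y.up a ha _ (LFam.KK_inv hb) h hay))
  · exact absurd (x.up _ (LFam.KK_inv ha) b hb h ((x.inv a ha).2 hax)) hbx

/-- The half planes of two points cut off from the third are disjoint. -/
theorem disj_of_split (hn : NEST_S) {x y z : Pt Λ} {b c : SLZ} (hb : b ∈ Λ.KK) (hc : c ∈ Λ.KK)
    (hbx : ¬ x.mem b) (hby : y.mem b) (hbz : ¬ z.mem b) (hcx : ¬ x.mem c)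
    (hcy : ¬ y.mem c) (hcz : z.mem c) : HP c b⁻¹ := by
  rcases hn G κ Λ c hc b hb with h | h | h | h
  · exact absurd (z.up c hc b hb h hcz) hbz
  · exact absurd (y.up b hb c hc h hby) hcy
  · exact h
  · exact absurd (x.up _ (LFam.KK_inv hc) b hb h ((x.inv c hc).2 hcx)) hbx

theorem coc (ho : ORD_S) (hn : NEST_S) (hw : WW_S) : COC_S := by
  classical
  intro G κ Λ n x y z hxy hyz hxz
  obtain ⟨l1, h1, _⟩ := ho G κ Λ x y hxy
  obtain ⟨l2, h2, _⟩ := ho G κ Λ x z hxz
  -- the lists of the three sets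
  let la := l1.filter (fun k => z.mem k)
  let lb := l1.filter (fun k => ¬ z.mem k)
  let lc := l2.filter (fun k => ¬ y.mem k)
  have ma : ∀ k, k ∈ la ↔ k ∈ Λ.KK ∧ ¬ x.mem k ∧ y.mem k ∧ z.mem k := by
    intro k
    simp only [la, List.mem_filter, decide_eq_true_eq]
    rw [h1.1 k]
    unfold Pt.Sep
    simp only [Set.mem_ofPred_eq]
    tauto
  have mb : ∀ k, k ∈ lb ↔ k ∈ Λ.KK ∧ ¬ x.mem k ∧ y.mem k ∧ ¬ z.mem k := by
    intro k
    simp only [lb, List.mem_filter, decide_eq_true_eq]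
    rw [h1.1 k]
    unfold Pt.Sep
    simp only [Set.mem_ofPred_eq]
    tauto
  have mc : ∀ k, k ∈ lc ↔ k ∈ Λ.KK ∧ ¬ x.mem k ∧ ¬ y.mem k ∧ z.mem k := by
    intro k
    simp only [lc, List.mem_filter, decide_eq_true_eq]
    rw [h2.1 k]
    unfold Pt.Sep
    simp only [Set.mem_ofPred_eq]
    tauto
  have na : la.Nodup := h1.2.1.filter _
  have nb : lb.Nodup := h1.2.1.filter _
  have nc : lc.Nodup := h2.2.1.filter _
  have pa : la.Pairwise (fun k k' => HP k' k) := h1.2.2.filter _
  have pb : lb.Pairwise (fun k k' => HP k' k) := h1.2.2.filter _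
  have pc : lc.Pairwise (fun k k' => HP k' k) := h2.2.2.filter _
  -- the ordered list of `x y`
  have o1 : IsOrd x y (la ++ lb) := by
    refine ⟨?_, ?_, ?_⟩
    · intro k
      rw [List.mem_append, ma, mb]
      unfold Pt.Sep
      simp only [Set.mem_ofPred_eq]
      tauto
    · rw [List.nodup_append]
      refine ⟨na, nb, ?_⟩
      intro a ha b hb e
      rw [ma] at ha
      rw [mb] at hb
      subst e
      exact hb.2.2.2 ha.2.2.2
    · rw [List.pairwise_append]
      refine ⟨pa, pb, ?_⟩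
      intro a ha b hb
      rw [ma] at ha
      rw [mb] at hb
      exact order_of_split hn ha.1 hb.1 ha.2.1 ha.2.2.1 ha.2.2.2 hb.2.1 hb.2.2.1 hb.2.2.2
  have o2 : IsOrd x z (la ++ lc) := by
    refine ⟨?_, ?_, ?_⟩
    · intro k
      rw [List.mem_append, ma, mc]
      unfold Pt.Sep
      simp only [Set.mem_ofPred_eq]
      tauto
    · rw [List.nodup_append]
      refine ⟨na, nc, ?_⟩
      intro a ha b hb e
      rw [ma] at ha
      rw [mc] at hb
      subst e
      exact hb.2.2.1 ha.2.2.1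
    · rw [List.pairwise_append]
      refine ⟨pa, pc, ?_⟩
      intro a ha b hb
      rw [ma] at ha
      rw [mc] at hb
      exact order_of_split hn ha.1 hb.1 ha.2.1 ha.2.2.2 ha.2.2.1 hb.2.1 hb.2.2.2 hb.2.2.1
  have o3 : IsOrd y z ((lb.map (fun k => k⁻¹)).reverse ++ lc) := by
    have mb' : ∀ k, k ∈ (lb.map (fun k => k⁻¹)).reverse ↔
        k ∈ Λ.KK ∧ x.mem k ∧ ¬ y.mem k ∧ z.mem k := by
      intro k
      rw [List.mem_reverse, List.mem_map]
      constructor
      · rintro ⟨b, hb, rfl⟩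
        rw [mb] at hb
        refine ⟨LFam.KK_inv hb.1, (x.inv b hb.1).2 hb.2.1, ?_, (z.inv b hb.1).2 hb.2.2.2⟩
        intro h
        exact (y.inv b hb.1).1 h hb.2.2.1
      · rintro ⟨hk, hx, hy, hz⟩
        refine ⟨k⁻¹, (mb _).2 ⟨LFam.KK_inv hk, ?_, (y.inv k hk).2 hy, ?_⟩, inv_inv k⟩
        · exact fun h => (x.inv k hk).1 h hx
        · exact fun h => (z.inv k hk).1 h hz
    refine ⟨?_, ?_, ?_⟩
    · intro k
      rw [List.mem_append, mb', mc]
      unfold Pt.Sep
      simp only [Set.mem_ofPred_eq]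
      tauto
    · rw [List.nodup_append]
      refine ⟨?_, nc, ?_⟩
      · rw [List.nodup_reverse]
        exact nb.map inv_injective
      · intro a ha b hb e
        rw [mb'] at ha
        rw [mc] at hb
        subst e
        exact hb.2.1 ha.2.1
    · rw [List.pairwise_append]
      refine ⟨?_, pc, ?_⟩
      · rw [List.pairwise_reverse, List.pairwise_map]
        refine List.Pairwise.imp_of_mem ?_ pb
        intro a b ha hb h
        exact HP_inv ((mb b).1 hb).1 h
      · intro a ha c hc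
        rw [List.mem_reverse, List.mem_map] at ha
        obtain ⟨b, hb, rfl⟩ := ha
        rw [mb] at hb
        rw [mc] at hc
        exact disj_of_split hn hb.1 hc.1 hb.2.1 hb.2.2.1 hb.2.2.2 hc.2.1 hc.2.2.1 hc.2.2.2
  rw [cpr_eq ho n hxy o1, cpr_eq ho n hyz o3, cpr_eq ho n hxz o2]
  have hinv : ((lb.map (fun k => k⁻¹)).reverse.map (Λ.w n)).prod = ((lb.map (Λ.w n)).prod)⁻¹ := by
    rw [List.prod_inv_reverse, List.map_reverse, List.map_map, List.map_map]
    congr 2
    apply List.map_congr_left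
    intro k hk
    exact (hw G κ Λ n).2.1 k ((mb k).1 hk).1
  rw [List.map_append, List.map_append, List.map_append, List.prod_append, List.prod_append,
    List.prod_append, hinv]
  group

end Pool.Agent.Lib.MP_eee7a8_ag.TB.PB.H62
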